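import Pool.Agent.H41.SS.Targets

/-!
# Row TCI: counting in a tree
-/

set_option autoImplicit false

namespace Pool.Agent.H90.SS

open Finset Pool.Agent.H97.RK Pool.Agent.H97.RL Pool.Agent.H41.SS

private theorem fals_of_eq {n : ℕ} {C : Clause n} {y y' : Fin n → Bool} (h : Falsified C y)
    (he : ∀ u ∈ vs C, y' u = y u) : Falsified C y' := by
  intro l hl
  rw [he l.1 (mem_image_of_mem _ hl)]
  exact h l hl

private theorem not_ax {n k m : ℕ} {F : Fml n k m} {D b : ℕ} {y : Fin n → Bool}
    {A W : Finset (Fin n)} {J : Finset (Fin m)} (hS : Sta F D b y A W J) {C : Clause n}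
    (hC : Falsified C y) (hv : vs C ⊆ A) : ¬ ∃ c, cls F c ⊆ C := by
  rintro ⟨c, hc⟩
  have hmem : ∀ i, F c i ∈ C := fun i => hc (mem_image_of_mem _ (mem_univ i))
  have h1 := hS.inv {c} (by
    rw [card_singleton]
    have := hS.lt
    omega) (by
    intro c' hc' i _
    rw [mem_singleton] at hc'
    subst hc'
    exact hC _ (hmem i))
  have h2 : VS F {c} \ (A ∪ W) = ∅ := by
    rw [sdiff_eq_empty_iff_subset]
    intro u hu
    rw [VS, mem_biUnion] at hu
    obtain ⟨c', hc', hu⟩ := hu
    rw [mem_singleton] at hc'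
    subst hc'
    rw [vF, mem_image] at hu
    obtain ⟨i, -, rfl⟩ := hu
    exact mem_union_left _ (hv (mem_image_of_mem _ (hmem i)))
  rw [h2, card_empty, card_singleton] at h1
  omega

/-- a state at a line of `U` -/
private theorem at_s (hRSR : Pool.Agent.H41.SS.T_RSR) {n k m : ℕ} {F : Fml n k m} {D d w u : ℕ} (hw : 6 * D ≤ w)
    (hG : Goo F D d w u) (hn : u + w + d ≤ n) {line : ℕ → Clause n} {p : ℕ}
    (hp : (vs (line p)).card ≤ u) {y : Fin n → Bool} {A W : Finset (Fin n)} {J : Finset (Fin m)}
    (hS : Sta F D 0 y A W J) (hf : Falsified (line p) y) (hv : vs (line p) ⊆ A) :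
    AtS F D line p := by
  obtain ⟨z, hz, hzy⟩ := hG (vs (line p)) y hp
  obtain ⟨y', W', J', h1, -, h3⟩ := hRSR n k m F D d w 0 hw z y A (vs (line p)) W J hz hS hv hzy
    (by omega)
  exact ⟨y', W', J', h3, fals_of_eq hf h1⟩

private theorem count_le {n : ℕ} (B : Finset (Fin n)) (y : Fin n → Bool)
    (X : Finset (Fin n → Bool)) (hX : ∀ z ∈ X, ∀ v ∈ B, z v = y v) :
    X.card ≤ 2 ^ (n - B.card) := by
  classical
  have h1 : X.card ≤ Fintype.card ({v : Fin n // v ∉ B} → Bool) := by
    rw [← card_univ]
    refine card_le_card_of_injOn (fun z v => z v.1) (fun _ _ => mem_coe.2 (mem_univ _)) ?_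
    intro z hz z' hz' h
    funext v
    by_cases hv : v ∈ B
    · rw [hX z hz v hv, hX z' hz' v hv]
    · exact congrFun h ⟨v, hv⟩
  have h2 : Fintype.card {v : Fin n // v ∉ B} = n - B.card := by
    rw [Fintype.card_subtype_compl, Fintype.card_fin, Fintype.card_coe]
  rw [Fintype.card_fun, Fintype.card_bool, h2] at h1
  exact h1

private theorem nl_mono {n S : ℕ} {rule : ℕ → Rule n} {an : ℕ → ℕ}
    {ls : ℕ → List (Fin n × Bool)} {l : ℕ} (q : Fin n × Bool) (L : List (Fin n × Bool)) :
    NL S rule an ls l (q :: L) ≤ NL S rule an ls l L := by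
  classical
  unfold NL
  refine card_le_card fun j hj => ?_
  rw [mem_filter] at hj ⊢
  exact ⟨hj.1, hj.2.1, hj.2.2.1, (List.suffix_cons q L).trans hj.2.2.2⟩

private theorem nl_add {n S : ℕ} {rule : ℕ → Rule n} {an : ℕ → ℕ}
    {ls : ℕ → List (Fin n × Bool)} {l : ℕ} (v : Fin n) (L : List (Fin n × Bool)) :
    NL S rule an ls l ((v, false) :: L) + NL S rule an ls l ((v, true) :: L) ≤
      NL S rule an ls l L := by
  classical
  unfold NL
  rw [← card_union_of_disjoint]
  · refine card_le_card fun j hj => ?_
    rw [mem_union, mem_filter, mem_filter] at hj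
    rw [mem_filter]
    rcases hj with hj | hj
    · exact ⟨hj.1, hj.2.1, hj.2.2.1, (List.suffix_cons _ L).trans hj.2.2.2⟩
    · exact ⟨hj.1, hj.2.1, hj.2.2.1, (List.suffix_cons _ L).trans hj.2.2.2⟩
  · rw [disjoint_left]
    intro j hj hj'
    rw [mem_filter] at hj hj'
    have h1 := List.suffix_of_suffix_length_le hj.2.2.2 hj'.2.2.2 (by simp)
    have h2 := h1.eq_of_length (by simp)
    simp at h2

theorem pf_TCI (hTRN : Pool.Agent.H41.SS.T_TRN) (hASK : Pool.Agent.H41.SS.T_ASK)
    (hRSR : Pool.Agent.H41.SS.T_RSR) : Pool.Agent.H41.SS.T_TCI := by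
  classical
  intro n k m F D d w u hw hG hun S r line rule hR U an ls hT hU l i
  induction i using Nat.strong_induction_on with
  | _ i IH =>
  intro y A W J hil hlr hax han hS hv hf hA
  obtain ⟨hr, -, hcor⟩ := hR
  have hiS : i < S := by omega
  have hWc : W.card ≤ 2 * D := by
    have h1 := hS.crd
    have h2 := hS.lt
    omega
  -- the general step
  have step : ∀ (p : ℕ) (y' : Fin n → Bool) (A' W' : Finset (Fin n)) (J' : Finset (Fin m))
      (L' : List (Fin n × Bool)), p < i → Sta F D 0 y' A' W' J' → vs (line p) ⊆ A' →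
      Falsified (line p) y' → A'.card + w + d ≤ n →
      (p ∉ U → p ≠ r → rule p ≠ Rule.ax → an p = l ∧ ls p = L') →
      (∃ l', l' < l ∧ l' ∈ U ∧ AtS F D line l') ∨
      (univ.filter fun z => Gd F D d w z ∧ ∀ v ∈ A' \ W', z v = y' v).card ≤
        NL S rule an ls l L' * 2 ^ (w + d + 2 * D + 1) := by
    intro p y' A' W' J' L' hp hS' hv' hf' hA' hL'
    by_cases hpU : p ∈ U
    · exact Or.inl ⟨p, by omega, hpU, at_s hRSR hw hG hun (hU p hpU) hS' hf' hv'⟩
    · have hpr : p ≠ r := by omega
      have hpax : rule p ≠ Rule.ax := by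
        intro h
        have h1 := hcor p (by omega)
        rw [h] at h1
        exact not_ax hS' hf' hv' h1
      obtain ⟨h1, h2⟩ := hL' hpU hpr hpax
      have h3 := IH p hp y' A' W' J' (by omega) hlr hpax h1 hS' hv' hf' hA'
      rw [h2] at h3
      exact h3
  have hNL : 1 ≤ NL S rule an ls l (ls i) := by
    unfold NL
    refine card_pos.2 ⟨i, ?_⟩
    rw [mem_filter, mem_range]
    exact ⟨hiS, hax, han, List.suffix_refl _⟩
  by_cases hbig : n < A.card + 1 + w + d
  · right
    have h1 := count_le (A \ W) y (univ.filter fun z => Gd F D d w z ∧ ∀ v ∈ A \ W, z v = y v)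
      (fun z hz => (mem_filter.1 hz).2.2)
    have h2 : A.card ≤ (A \ W).card + W.card := by
      have := le_card_sdiff W A
      omega
    calc (univ.filter fun z => Gd F D d w z ∧ ∀ v ∈ A \ W, z v = y v).card
        ≤ 2 ^ (n - (A \ W).card) := h1
      _ ≤ 2 ^ (w + d + 2 * D + 1) := Nat.pow_le_pow_right (by norm_num) (by omega)
      _ = 1 * 2 ^ (w + d + 2 * D + 1) := (one_mul _).symm
      _ ≤ _ := Nat.mul_le_mul_right _ hNL
  have hA1 : A.card + 1 + w + d ≤ n := by omega
  have hins : ∀ v, (insert v A).card ≤ A.card + 1 := fun v => card_insert_le v A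
  have hc := hcor i hiS
  rcases hrule : rule i with _ | j | ⟨v, j, k'⟩
  · exact absurd hrule hax
  · -- weakening
    rw [hrule] at hc
    obtain ⟨hji, hsub⟩ := hc
    refine step j y A W J (ls i) hji hS ((image_subset_image hsub).trans hv)
      (fun q hq => hf q (hsub hq)) hA ?_
    intro h1 h2 h3
    obtain ⟨h4, h5⟩ := hT.weak i j hiS h1 h2 h3 hrule
    exact ⟨h4.trans han, h5⟩
  · rw [hrule] at hc
    obtain ⟨hji, hki, hsj, hsk⟩ := hc
    -- the premises
    have prem : ∀ b : Bool, ∃ p, p < i ∧ line p ⊆ insert (v, !b) (line i) ∧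
        (p ∉ U → p ≠ r → rule p ≠ Rule.ax → an p = l ∧ ls p = (v, b) :: ls i) := by
      intro b
      cases b
      · refine ⟨j, hji, hsj, fun h1 h2 h3 => ?_⟩
        obtain ⟨h4, h5⟩ := hT.left i j k' v hiS h1 h2 h3 hrule
        exact ⟨h4.trans han, h5⟩
      · refine ⟨k', hki, hsk, fun h1 h2 h3 => ?_⟩
        obtain ⟨h4, h5⟩ := hT.right i k' j v hiS h1 h2 h3 hrule
        exact ⟨h4.trans han, h5⟩
    have pvs : ∀ (b : Bool) (p : ℕ), line p ⊆ insert (v, !b) (line i) →
        vs (line p) ⊆ insert v A := by
      intro b p hp q hq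
      obtain ⟨e, he, rfl⟩ := mem_image.1 hq
      rcases mem_insert.1 (hp he) with h | h
      · rw [h]
        exact mem_insert_self _ _
      · exact mem_insert_of_mem (hv (mem_image_of_mem _ h))
    have pfa : ∀ (b : Bool) (p : ℕ) (y' : Fin n → Bool), line p ⊆ insert (v, !b) (line i) →
        y' v = b → (∀ q ∈ A, y' q = y q) → Falsified (line p) y' := by
      intro b p y' hp hb hy e he
      rcases mem_insert.1 (hp he) with h | h
      · rw [h]
        show y' v ≠ !b
        rw [hb]
        cases b <;> simp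
      · rw [hy e.1 (hv (mem_image_of_mem _ h))]
        exact hf e h
    by_cases hvAW : v ∈ A ∪ W
    · obtain ⟨p, hp, hps, hpt⟩ := prem (y v)
      have e1 : insert v A ∪ W = A ∪ W := by
        rw [insert_union, insert_eq_of_mem hvAW]
      have e2 : insert v A \ W = A \ W := by
        by_cases hvW : v ∈ W
        · exact insert_sdiff_of_mem _ hvW
        · have hvA : v ∈ A := (mem_union.1 hvAW).resolve_right hvW
          rw [insert_eq_of_mem hvA]
      have hS' : Sta F D 0 y (insert v A) W J :=
        { mem := by rw [e1]; exact hS.mem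
          fls := by rw [e2]; exact hS.fls
          sat := by rw [e1]; exact hS.sat
          inv := by rw [e1]; exact hS.inv
          lt := hS.lt
          crd := hS.crd }
      have h1 := step p y (insert v A) W J _ hp hS' (pvs (y v) p hps)
        (pfa (y v) p y hps rfl fun _ _ => rfl) (by have := hins v; omega) hpt
      rw [e2] at h1
      rcases h1 with h1 | h1
      · exact Or.inl h1
      · exact Or.inr (h1.trans (Nat.mul_le_mul_right _ (nl_mono _ _)))
    · have claim : ∀ b : Bool, (∃ l', l' < l ∧ l' ∈ U ∧ AtS F D line l') ∨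
          ((univ.filter fun z => Gd F D d w z ∧ ∀ v ∈ A \ W, z v = y v).filter
            fun z => z v = b).card ≤
            NL S rule an ls l ((v, b) :: ls i) * 2 ^ (w + d + 2 * D + 1) := by
        intro b
        rcases ((univ.filter fun z => Gd F D d w z ∧ ∀ v ∈ A \ W, z v = y v).filter
            fun z => z v = b).eq_empty_or_nonempty with h0 | ⟨z, hz⟩
        · right
          rw [h0, card_empty]
          exact Nat.zero_le _
        rw [mem_filter, mem_filter] at hz
        obtain ⟨⟨-, hzG, hzy⟩, hzb⟩ := hz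
        have hS1 : Sta F D 0 (fun q => if q ∈ A ∪ W then y q else z q) A W J :=
          hTRN n k m F D 0 y _ A W J hS fun q hq => if_pos hq
        have hoff : ∀ q, q ∉ W → (fun q => if q ∈ A ∪ W then y q else z q) q = z q := by
          intro q hq
          beta_reduce
          by_cases hqA : q ∈ A
          · rw [if_pos (mem_union_left _ hqA), hzy q (mem_sdiff.2 ⟨hqA, hq⟩)]
          · rw [if_neg]
            rw [mem_union, not_or]
            exact ⟨hqA, hq⟩
        obtain ⟨y', W', J', hWW, hy', -, hS'⟩ := hASK n k m F D d w 0 (by omega) z _ A W J v hzG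
          hS1 hoff (by have := hins v; omega)
        have hyv : y' v = b := by
          rw [hy' v (mem_insert_self _ _), if_neg hvAW, hzb]
        have hyA : ∀ q ∈ A, y' q = y q := by
          intro q hq
          rw [hy' q (mem_insert_of_mem (mem_union_left _ hq)), if_pos (mem_union_left _ hq)]
        obtain ⟨p, hp, hps, hpt⟩ := prem b
        have h1 := step p y' (insert v A) W' J' _ hp hS' (pvs b p hps) (pfa b p y' hps hyv hyA)
          (by have := hins v; omega) hpt
        rcases h1 with h1 | h1
        · exact Or.inl h1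
        · right
          refine le_trans (card_le_card fun x hx => ?_) h1
          rw [mem_filter, mem_filter] at hx
          obtain ⟨⟨-, hxG, hxy⟩, hxb⟩ := hx
          rw [mem_filter]
          refine ⟨mem_univ _, hxG, fun q hq => ?_⟩
          rw [mem_sdiff, mem_insert] at hq
          obtain ⟨hq1 | hq1, hq2⟩ := hq
          · rw [hq1, hxb, hyv]
          · rw [hyA q hq1]
            exact hxy q (mem_sdiff.2 ⟨hq1, fun h => hq2 (hWW h)⟩)
      rcases claim false with h1 | h1
      · exact Or.inl h1
      rcases claim true with h2 | h2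
      · exact Or.inl h2
      right
      have h3 : (univ.filter fun z => Gd F D d w z ∧ ∀ v ∈ A \ W, z v = y v).card =
          ((univ.filter fun z => Gd F D d w z ∧ ∀ v ∈ A \ W, z v = y v).filter
            fun z => z v = false).card +
          ((univ.filter fun z => Gd F D d w z ∧ ∀ v ∈ A \ W, z v = y v).filter
            fun z => z v = true).card := by
        rw [add_comm, ← card_filter_add_card_filter_not (fun z : Fin n → Bool => z v = true)]
        congr 2
        refine filter_congr fun z _ => ?_
        cases z v <;> simp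
      rw [h3]
      calc _ ≤ NL S rule an ls l ((v, false) :: ls i) * 2 ^ (w + d + 2 * D + 1) +
            NL S rule an ls l ((v, true) :: ls i) * 2 ^ (w + d + 2 * D + 1) := add_le_add h1 h2
        _ = (NL S rule an ls l ((v, false) :: ls i) + NL S rule an ls l ((v, true) :: ls i)) *
            2 ^ (w + d + 2 * D + 1) := (add_mul _ _ _).symm
        _ ≤ _ := Nat.mul_le_mul_right _ (nl_add v (ls i))

end Pool.Agent.H90.SS
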